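import Pool.Agent.R791.Lead4

/-!
# The leading coefficient of the `L`-function of a curve at `s = 0` and traces of Frobenius

Let `X` be a smooth projective curve of genus `g` over `ℚ` (or over a number field `K`). The `L`-function
`L(X, s)` is an Euler product `∏_v ∏ᵢ (1 - α_{v,i} Nv^(-s))⁻¹`, `i < 2g`, with `|α_{v,i}| ≤ Nv^(1/2)`, and
the polynomials `∏ᵢ (1 - α_{v,i} T)` are real. (For the primes of bad reduction some of the numbers may be `0`.)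
Here we treat all Euler products of this form and all real points `a`. For real `w` and `ρ > 1` let

`T(y) = ∑_{v, k ≥ 1} ∑ᵢ α_{v,i}^k / (k Nv^(kw)) K_ρ(k log Nv / y^(1/ρ))`,

for `ρ = 2` this is a sum of Gaussian functions of `k log Nv`. The number `A` is the leading coefficient of
`L` at `a` and `r` is the order, if and only if `T` has an expansion in exponential functions in which the
coefficient at the exponent `(a - w)^ρ` is `-r`, and `A` is given by an absolutely convergent integral of `T`.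
No continuation of `L` is assumed.
-/

set_option autoImplicit false

namespace Pool.Agent.Results.MP_743d1e_nt.LeadingCoefficient

open Filter Topology Complex NumberField IsDedekindDomain MeasureTheory
open Pool.Agent.R791.Frob

variable {K : Type} [Field K] [NumberField K] {d : ℕ} {c : ℝ}

/-- `L` continues meromorphically along the real axis to a neighbourhood of `a`, and
`L(s) / (s - a)^r → A` as `s → a`. -/
def LeadingTerm (V : Frobenius K d c) (a : ℝ) (r : ℤ) (A : ℂ) : Prop :=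
  ∃ G : ℂ → ℂ, (∀ x : ℝ, a ≤ x → MeromorphicAt G x) ∧
    (∀ s : ℂ, c + 1 / 2 < s.re → G s = V.LSeries s) ∧
    Tendsto (fun s : ℂ => G s / (s - a) ^ r) (𝓝[≠] (a : ℂ)) (𝓝 A)

/-- The region `|arg (s - w)| < π / (2 ρ)`, `Re (s - w) ^ ρ > θ`. -/
def Region (w ρ θ : ℝ) : Set ℂ :=
  {s | s ≠ w ∧ |(s - w).arg| < Real.pi / (2 * ρ) ∧ θ < ((s - w) ^ (ρ : ℂ)).re}

/-- `(f(y) + r (exp(v₀ y) - exp(-y)) - ∑ m(z) (exp(z y) - exp(-y))) exp(-v₀ y) / y`. -/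
noncomputable def integrand (f : ℝ → ℝ) (v₀ : ℝ) (r : ℤ) (S : Finset ℂ) (m : ℂ → ℤ) (y : ℝ) : ℂ :=
  ((f y : ℂ) + r * (exp (v₀ * y) - exp (-y)) - ∑ z ∈ S, (m z : ℂ) * (exp (z * y) - exp (-y))) *
    exp (-(v₀ * y)) / y

/-- `exp(∫ integrand) ∏ ((v₀ + 1) / (v₀ - z))^m(z) (ρ (a - w)^(ρ-1) / (v₀ + 1))^r`, where
`v₀ = (a - w)^ρ`. -/
noncomputable def value (f : ℝ → ℝ) (w ρ a : ℝ) (r : ℤ) (S : Finset ℂ) (m : ℂ → ℤ) : ℂ :=
  exp (∫ y in Set.Ioi (0 : ℝ), integrand f ((a - w) ^ ρ) r S m y) *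
    (∏ z ∈ S, ((((a - w) ^ ρ : ℝ) + 1) / (((a - w) ^ ρ : ℝ) - z)) ^ (m z)) *
    ((ρ * (a - w) ^ (ρ - 1) / ((a - w) ^ ρ + 1) : ℝ) : ℂ) ^ r

/-- `T(y) = -r exp((a - w)^ρ y) + ∑ m(z) exp(z y) + O(exp(θ y))` with some `θ` in `[0, (a - w)^ρ)`, finitely
many complex numbers `z ≠ (a - w)^ρ` and integers `m(z)`, such that the integral converges absolutely and the
value is `A`. -/
def Expands (V : Frobenius K d c) (w ρ a : ℝ) (r : ℤ) (A : ℂ) : Prop :=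
  ∃ (θ : ℝ) (S : Finset ℂ) (m : ℂ → ℤ) (C : ℝ), 0 ≤ θ ∧ θ < (a - w) ^ ρ ∧
    (((a - w) ^ ρ : ℝ) : ℂ) ∉ S ∧ (∀ᶠ y : ℝ in atTop,
      ‖(V.stMean w ρ y : ℂ) + r * exp (((a - w) ^ ρ : ℝ) * y) - ∑ z ∈ S, (m z : ℂ) * exp (z * y)‖ ≤
        C * Real.exp (θ * y)) ∧
    IntegrableOn (integrand (V.stMean w ρ) ((a - w) ^ ρ) r S m) (Set.Ioi 0) ∧
    A = value (V.stMean w ρ) w ρ a r S m

/-- **Order and leading coefficient at a real point from traces of Frobenius.** -/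
theorem result (V : Frobenius K d c) :
    (∀ w ρ y : ℝ, 1 < ρ → 0 < y → Summable (V.stTerm w ρ y)) ∧
    (∀ v : ℝ, 0 < v → kern 2 v = v * Real.exp (-v ^ 2 / 4) / (2 * √Real.pi)) ∧
    (∀ (w ρ θ a : ℝ) (r : ℤ) (S : Finset ℂ) (m : ℂ → ℤ) (C : ℝ), 1 < ρ → 0 ≤ θ → w < a →
      θ < (a - w) ^ ρ → (((a - w) ^ ρ : ℝ) : ℂ) ∉ S →
      (∀ᶠ y : ℝ in atTop, ‖(V.stMean w ρ y : ℂ) + r * exp (((a - w) ^ ρ : ℝ) * y) -
        ∑ z ∈ S, (m z : ℂ) * exp (z * y)‖ ≤ C * Real.exp (θ * y)) →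
      IntegrableOn (integrand (V.stMean w ρ) ((a - w) ^ ρ) r S m) (Set.Ioi 0)) ∧
    (∀ (a : ℝ) (r : ℤ) (A : ℂ), A ≠ 0 → List.TFAE [
      LeadingTerm V a r A,
      ∃ w ρ : ℝ, w < a ∧ 1 < ρ ∧ Expands V w ρ a r A,
      ∃ ε : ℝ, 0 < ε ∧ ∀ w : ℝ, a - ε < w → w < a → ∃ ρ₀ : ℝ, ∀ ρ : ℝ, 1 < ρ → ρ₀ < ρ →
        Expands V w ρ a r A]) ∧
    ∀ (w ρ θ a : ℝ) (G : ℂ → ℂ), 1 < ρ → 0 ≤ θ → w < a → θ < (a - w) ^ ρ →
      (∀ s ∈ Region w ρ θ, MeromorphicAt G s) →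
      (∀ s : ℂ, c + 1 / 2 < s.re → G s = V.LSeries s) →
      ∀ (r : ℤ) (A : ℂ), A ≠ 0 →
        (Tendsto (fun s : ℂ => G s / (s - a) ^ r) (𝓝[≠] (a : ℂ)) (𝓝 A) ↔ Expands V w ρ a r A) := by
  obtain ⟨lam, cc, D, hT⟩ := V.exists_ds
  have hreg : ∀ w ρ θ : ℝ, Region w ρ θ = Pool.Agent.R791.Level.LvAt w ρ θ := by
    intro w ρ θ
    ext s
    unfold Region Pool.Agent.R791.Level.LvAt Pool.Agent.R791.SectGen.SectorAt
    simp only [Set.mem_ofPred_eq, and_assoc]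
  have hlim : ∀ (G : ℂ → ℂ) (a : ℝ) (r : ℤ) (A : ℂ),
      Tendsto (fun s : ℂ => G s / (s - a) ^ r) (𝓝[≠] (a : ℂ)) (𝓝 A) ↔
        Tendsto (fun s : ℂ => G s * (s - a) ^ (-r)) (𝓝[≠] (a : ℂ)) (𝓝 A) := by
    intro G a r A
    simp only [zpow_neg, div_eq_mul_inv]
  have hinteq : ∀ (w ρ v₀ : ℝ) (r : ℤ) (S : Finset ℂ) (m : ℂ → ℤ), ∀ y ∈ Set.Ioi (0 : ℝ),
      Pool.Agent.R791.Lead.integrand (Pool.Agent.R791.Dir.TW lam cc w ρ) v₀ r S m y =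
        integrand (V.stMean w ρ) v₀ r S m y := by
    intro w ρ v₀ r S m y hy
    unfold Pool.Agent.R791.Lead.integrand integrand
    rw [hT w ρ y hy]
  have hIntOn : ∀ (w ρ v₀ : ℝ) (r : ℤ) (S : Finset ℂ) (m : ℂ → ℤ),
      IntegrableOn (Pool.Agent.R791.Lead.integrand (Pool.Agent.R791.Dir.TW lam cc w ρ) v₀ r S m)
        (Set.Ioi 0) → IntegrableOn (integrand (V.stMean w ρ) v₀ r S m) (Set.Ioi 0) :=
    fun w ρ v₀ r S m h => h.congr_fun (hinteq w ρ v₀ r S m) measurableSet_Ioi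
  have hval : ∀ (w ρ a : ℝ) (r : ℤ) (S : Finset ℂ) (m : ℂ → ℤ),
      Pool.Agent.R791.Lead.leadC (Pool.Agent.R791.Dir.TW lam cc w ρ) w ρ a r S m =
        value (V.stMean w ρ) w ρ a r S m := by
    intro w ρ a r S m
    unfold Pool.Agent.R791.Lead.leadC value
    rw [setIntegral_congr_fun measurableSet_Ioi (hinteq w ρ ((a - w) ^ ρ) r S m)]
  have hev : ∀ (w ρ v₀ θ C : ℝ) (r : ℤ) (S : Finset ℂ) (m : ℂ → ℤ),
      (∀ᶠ y : ℝ in atTop, ‖(V.stMean w ρ y : ℂ) + r * exp (v₀ * y) -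
        ∑ z ∈ S, (m z : ℂ) * exp (z * y)‖ ≤ C * Real.exp (θ * y)) ↔
      (∀ᶠ y : ℝ in atTop, ‖(Pool.Agent.R791.Dir.TW lam cc w ρ y : ℂ) + r * exp (v₀ * y) -
        ∑ z ∈ S, (m z : ℂ) * exp (z * y)‖ ≤ C * Real.exp (θ * y)) := by
    intro w ρ v₀ θ C r S m
    refine eventually_congr ?_
    filter_upwards [eventually_gt_atTop 0] with y hy
    rw [hT w ρ y hy]
  have hI : ∀ (w ρ θ a : ℝ) (r : ℤ) (S : Finset ℂ) (m : ℂ → ℤ) (C : ℝ), 1 < ρ → 0 ≤ θ → w < a →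
      θ < (a - w) ^ ρ → (((a - w) ^ ρ : ℝ) : ℂ) ∉ S →
      (∀ᶠ y : ℝ in atTop, ‖(V.stMean w ρ y : ℂ) + r * exp (((a - w) ^ ρ : ℝ) * y) -
        ∑ z ∈ S, (m z : ℂ) * exp (z * y)‖ ≤ C * Real.exp (θ * y)) →
      IntegrableOn (integrand (V.stMean w ρ) ((a - w) ^ ρ) r S m) (Set.Ioi 0) := by
    intro w ρ θ a r S m C hρ hθ ha hθa hS hC
    obtain ⟨y₀, hy₀⟩ := ((hev w ρ _ θ C r S m).1 hC).exists_forall_of_atTop
    exact hIntOn _ _ _ _ _ _ (Pool.Agent.R791.Lead.DS.lead D hρ hθ ha hθa hS hy₀).1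
  have hE : ∀ (w ρ a : ℝ) (r : ℤ) (A : ℂ), 1 < ρ → w < a →
      (Expands V w ρ a r A ↔
        Pool.Agent.R791.Lead.ExpdL (Pool.Agent.R791.Dir.TW lam cc w ρ) w ρ a r A) := by
    intro w ρ a r A hρ ha
    constructor
    · rintro ⟨θ, S, m, C, h1, h2, h3, h4, -, h6⟩
      exact ⟨θ, S, m, C, h1, h2, h3, (hev w ρ _ θ C r S m).1 h4, by rw [h6, hval]⟩
    · rintro ⟨θ, S, m, C, h1, h2, h3, h4, h5⟩
      have h4' := (hev w ρ _ θ C r S m).2 h4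
      exact ⟨θ, S, m, C, h1, h2, h3, h4', hI w ρ θ a r S m C hρ h1 ha h2 h3 h4', by rw [h5, hval]⟩
  refine ⟨fun w ρ y hρ hy => V.stTerm_summable w hρ hy, fun v hv => ?_, hI, fun a r A hA => ?_,
    fun w ρ θ a G hρ hθ ha hθa hG hGL r A hA => ?_⟩
  · have h : kern 2 v = Pool.Agent.R791.Heat.gk 2⁻¹ v := rfl
    rw [h, Pool.Agent.R791.Heat.gk_half hv]
    ring
  · have h := Pool.Agent.R791.Lead.DS.lead_tfae D a r A
    have h1 : LeadingTerm V a r A ↔ Pool.Agent.R791.Lead.LeadTo V.LSeries (c + 1 / 2) a r A := by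
      unfold LeadingTerm Pool.Agent.R791.Lead.LeadTo
      constructor
      · rintro ⟨G, e1, e2, e3⟩
        exact ⟨G, e1, e2, (hlim G a r A).1 e3, hA⟩
      · rintro ⟨G, e1, e2, e3, -⟩
        exact ⟨G, e1, e2, (hlim G a r A).2 e3⟩
    have h2 : (∃ w ρ : ℝ, w < a ∧ 1 < ρ ∧ Expands V w ρ a r A) ↔ ∃ w ρ : ℝ, w < a ∧ 1 < ρ ∧
        Pool.Agent.R791.Lead.ExpdL (Pool.Agent.R791.Dir.TW lam cc w ρ) w ρ a r A := by
      refine exists_congr fun w => exists_congr fun ρ => ?_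
      constructor
      · rintro ⟨e1, e2, e3⟩
        exact ⟨e1, e2, (hE w ρ a r A e2 e1).1 e3⟩
      · rintro ⟨e1, e2, e3⟩
        exact ⟨e1, e2, (hE w ρ a r A e2 e1).2 e3⟩
    have h3 : (∃ ε : ℝ, 0 < ε ∧ ∀ w : ℝ, a - ε < w → w < a → ∃ ρ₀ : ℝ, ∀ ρ : ℝ, 1 < ρ → ρ₀ < ρ →
        Expands V w ρ a r A) ↔ ∃ ε : ℝ, 0 < ε ∧ ∀ w : ℝ, a - ε < w → w < a → ∃ ρ₀ : ℝ, ∀ ρ : ℝ,
        1 < ρ → ρ₀ < ρ →
          Pool.Agent.R791.Lead.ExpdL (Pool.Agent.R791.Dir.TW lam cc w ρ) w ρ a r A := by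
      refine exists_congr fun ε => and_congr_right fun _ => forall_congr' fun w =>
        forall_congr' fun _ => forall_congr' fun hwa => exists_congr fun ρ₀ => forall_congr' fun ρ =>
        forall_congr' fun hρ => forall_congr' fun _ => hE w ρ a r A hρ hwa
    rw [h1, h2, h3]
    exact h
  · rw [hlim, hE w ρ a r A hρ ha]
    rw [hreg] at hG
    exact Pool.Agent.R791.Lead.DS.lead_region D hρ hθ ha hθa hG hGL r hA

end Pool.Agent.Results.MP_743d1e_nt.LeadingCoefficient
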